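import Pool.Agent.Lib.MP_3ca114_lc.KerdockGen

set_option autoImplicit false

namespace Pool.Agent.Results.MP_3ca114_lc.KerdockBound

/-- A binary linear code of length `n ≥ 16` whose nonzero words all have weight at least
`(n - √n)/2` has fewer than `n²` words. -/
theorem result :
    ∀ n : ℕ, 16 ≤ n → ∀ C : Submodule (ZMod 2) (Fin n → ZMod 2),
      (∀ c ∈ C, c ≠ 0 → ((n : ℝ) - Real.sqrt n) / 2 ≤ (hammingNorm c : ℝ)) →
      Nat.card C < n ^ 2 := by
  intro n hn C hC
  refine Pool.Agent.MP_3ca114_lc.card_lt_sq n hn C (fun c hc h0 => ?_)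
  have := hC c hc h0
  linarith

end Pool.Agent.Results.MP_3ca114_lc.KerdockBound
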