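import Pool.Agent.Lib.MP_3ca114_lc.GtCode

/-!
# Linear codes with the parameters of the Goethals codes: plateaued dual words

For every even `m ≥ 6` a binary linear code of length `2 ^ m` and minimum distance at least `8` has
at most `2 ^ (2 ^ m - 3 m)` words, provided that every word of its dual code is a plateaued
function; this is the case for every code that contains the Reed-Muller code of order `m - 3`.

Steps of the proof. Let `n = 2 ^ m` and let `D` be the dual code, with less than `n ^ 3` words. The
moments of order at most `7` of the character sums of `D` and of its translates are known, since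
`D` has dual distance at least `8`. They force `D` to have `n ^ 3 / 2` words, to contain all affine
functions, and the amplitudes of its other words to be `√n` and `2 √n`. So a complement `D₀` of
the affine functions in `D` has `n ^ 2 / 4` words, and `(n - 2) (n + 8) / 12` of them have the
amplitude `√n`. But the parity of the character sum divided by `√n` is a polynomial of degree at
most `m / 2` in the `2 m - 2` coordinates of `D₀`, so by a theorem of Ax this number is divisible
by `8`, which is wrong for `m ≥ 6`.
-/

set_option autoImplicit false

namespace Pool.Agent.Results.MP_3ca114_lc.PlateauedDual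

open Pool.Agent.MP_3ca114_lc.Gt

theorem result :
    ∀ m : ℕ, Even m → 6 ≤ m → ∀ C : Submodule (ZMod 2) ((Fin m → ZMod 2) → ZMod 2),
      (∀ c ∈ C, c ≠ 0 → 8 ≤ hammingNorm c) →
      ((∀ g : (Fin m → ZMod 2) → ZMod 2, (∀ c ∈ C, ∑ x, g x * c x = 0) → Plateaued g) ∨
        ∀ f ∈ RM (m - 3) m, f ∈ C) →
      Nat.card C ≤ 2 ^ (2 ^ m - 3 * m) := by
  intro m hm h6 C hC h
  rcases h with h | h
  · exact bound_plateaued hm h6 C hC h
  · exact bound_RM hm h6 C hC h

end Pool.Agent.Results.MP_3ca114_lc.PlateauedDual
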